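import Mathlib
open Finset Filter Topology
namespace Pool.Agent.H.MP_b041da_pr

noncomputable def a : ℕ → ℤ → ℝ
  | 0, k => if k = 0 then 1 else 0
  | n + 1, k => a n k / 2 + (a n (k + 1) + a n (k - 1)) / 4

lemma a_nonneg (n : ℕ) : ∀ k, 0 ≤ a n k := by
  induction n with
  | zero => intro k; simp only [a]; split_ifs <;> norm_num
  | succ n ih => intro k; simp only [a]; have := ih k; have := ih (k+1); have := ih (k-1); positivity

lemma a_neg (n : ℕ) : ∀ k, a n (-k) = a n k := by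
  induction n with
  | zero => intro k; simp [a]
  | succ n ih =>
    intro k; simp only [a]
    rw [ih k, show -k + 1 = -(k - 1) by ring, show -k - 1 = -(k + 1) by ring, ih, ih]; ring

lemma a_ratio (n : ℕ) : ∀ k : ℤ, ((n:ℝ) + k + 1) * a n (k + 1) = (n - k) * a n k := by
  induction n with
  | zero =>
    intro k; simp only [a]
    by_cases h : k = 0
    · subst h; simp
    · by_cases h2 : k + 1 = 0
      · have : (k:ℝ) + 1 = 0 := by exact_mod_cast h2
        simp [h, this]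
      · simp [h, h2]
  | succ n ih =>
    intro k; simp only [a]
    have h1 := ih (k - 1)
    have h2 := ih k
    have h3 := ih (k + 1)
    rw [sub_add_cancel] at h1
    rw [add_sub_cancel_right]
    push_cast at *
    linear_combination (1/4) * h1 + (1/2) * h2 + (1/4) * h3

lemma a_sum (n : ℕ) : ∀ S : Finset ℤ, ∑ k ∈ S, a n k ≤ 1 := by
  induction n with
  | zero =>
    intro S; simp only [a]; rw [sum_ite_eq']; split_ifs <;> norm_num
  | succ n ih =>
    intro S; simp only [a]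
    have h1 := ih (S.image (· + 1))
    have h2 := ih (S.image (· - 1))
    rw [sum_image (fun x _ y _ h => by simpa using h)] at h1 h2
    rw [sum_add_distrib, ← sum_div, ← sum_div, sum_add_distrib]
    linarith [ih S]

lemma a_step (n : ℕ) (k : ℕ) : a n ((k:ℤ) + 1) ≤ a n k := by
  have h := a_ratio n k
  have h0 := a_nonneg n k
  have hp : (0:ℝ) < (n:ℝ) + k + 1 := by positivity
  push_cast at h
  refine le_of_mul_le_mul_left ?_ hp
  rw [h]
  have : (0:ℝ) ≤ k := by positivity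
  nlinarith

lemma a_anti (n : ℕ) : Antitone fun k : ℕ => a n k :=
  antitone_nat_of_succ_le fun k => by simpa using a_step n k

lemma a_abs (n : ℕ) (k : ℤ) : a n k = a n (k.natAbs : ℕ) := by
  rcases Int.natAbs_eq k with h | h
  · rw [← h]
  · conv_lhs => rw [h, a_neg]

lemma a_le0 (n : ℕ) (k : ℤ) : a n k ≤ a n 0 := by
  rw [a_abs]; simpa using a_anti n (Nat.zero_le k.natAbs)

lemma a_nat (n k : ℕ) : ((k:ℝ) + 1) * a n k ≤ 1 := by
  have h := a_sum n ((range (k+1)).image (fun i : ℕ => (i:ℤ)))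
  rw [sum_image (fun x _ y _ h => by simpa using h)] at h
  refine le_trans ?_ h
  have := card_nsmul_le_sum (range (k+1)) (fun i : ℕ => a n i) (a n k)
    (fun i hi => a_anti n (by simpa [Nat.lt_succ_iff] using hi))
  simpa using this

lemma a_far (n : ℕ) (k : ℤ) : a n k ≤ 1 / ((k.natAbs:ℝ) + 1) := by
  rw [a_abs, le_div_iff₀ (by positivity), mul_comm]; exact a_nat _ _

lemma a_le1 (n : ℕ) (k : ℤ) : a n k ≤ 1 := by simpa using a_sum n {k}

lemma a_grad0 (n k : ℕ) : |a n ((k:ℤ) + 1) - a n k| ≤ 2 * (1 / ((n:ℝ) + 1)) := by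
  rw [abs_sub_comm, abs_of_nonneg (sub_nonneg.2 (a_step n k)), mul_one_div,
    le_div_iff₀ (by positivity)]
  have h := a_ratio n k
  have h1 := a_nat n k
  have h2 := a_step n k
  have h0 := a_nonneg n k
  push_cast at h
  have : (0:ℝ) ≤ k := by positivity
  nlinarith

lemma a_grad1 (n : ℕ) (k : ℤ) : |a n (k + 1) - a n k| ≤ 2 * (1 / ((n:ℝ) + 1)) := by
  rcases le_or_gt 0 k with h | h
  · lift k to ℕ using h; exact a_grad0 n k
  · obtain ⟨m, rfl⟩ : ∃ m : ℕ, k = -((m:ℤ) + 1) := ⟨(-k - 1).toNat, by omega⟩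
    rw [show -((m:ℤ) + 1) + 1 = -(m:ℤ) by ring, a_neg, a_neg, abs_sub_comm]
    exact a_grad0 n m

lemma a_grad (n : ℕ) (k s : ℤ) (hs : s = 1 ∨ s = -1) :
    |a n (k + s) - a n k| ≤ 2 * (1 / ((n:ℝ) + 1)) := by
  rcases hs with rfl | rfl
  · exact a_grad1 n k
  · have := a_grad1 n (k + -1)
    rw [show k + -1 + 1 = k by ring, abs_sub_comm] at this; exact this

lemma a_tv1 (n : ℕ) (S : Finset ℤ) : ∑ k ∈ S, |a n (k + 1) - a n k| ≤ 2 * a n 0 := by
  have h : ∀ M, ∑ i ∈ range M, |a n ((i:ℤ) + 1) - a n i| ≤ a n 0 := by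
    intro M
    have : ∑ i ∈ range M, |a n ((i:ℤ) + 1) - a n i| =
        ∑ i ∈ range M, ((fun i : ℕ => a n i) i - (fun i : ℕ => a n i) (i + 1)) :=
      sum_congr rfl fun i _ => by
        rw [abs_sub_comm, abs_of_nonneg (sub_nonneg.2 (a_step n i))]; simp
    rw [this, sum_range_sub']
    simpa using a_nonneg n M
  have s1 := summable_of_sum_range_le (fun i => abs_nonneg _) h
  have t1 := Real.tsum_le_of_sum_range_le (fun i => abs_nonneg _) h
  have e : ∀ i : ℕ, |a n (-((i:ℤ) + 1) + 1) - a n (-((i:ℤ) + 1))| = |a n ((i:ℤ) + 1) - a n i| :=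
    fun i => by rw [show -((i:ℤ) + 1) + 1 = -(i:ℤ) by ring, a_neg, a_neg, abs_sub_comm]
  have hs := HasSum.of_nat_of_neg_add_one (f := fun k : ℤ => |a n (k + 1) - a n k|) s1.hasSum
    (by simp only [e]; exact s1.hasSum)
  have := sum_le_hasSum S (fun i _ => abs_nonneg _) hs
  linarith

lemma a_tv (n : ℕ) (S : Finset ℤ) (s : ℤ) (hs : s = 1 ∨ s = -1) :
    ∑ k ∈ S, |a n (k + s) - a n k| ≤ 2 * a n 0 := by
  rcases hs with rfl | rfl
  · exact a_tv1 n S
  · have := a_tv1 n (S.image (· + -1))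
    rw [sum_image (fun x _ y _ h => by simpa using h)] at this
    refine le_trans (le_of_eq (sum_congr rfl fun k _ => ?_)) this
    rw [show k + -1 + 1 = k by ring, abs_sub_comm]

lemma a_zero (n : ℕ) : a n 0 ^ 2 * (2 * n + 1) ≤ 1 := by
  induction n with
  | zero => simp [a]
  | succ n ih =>
    have h := a_ratio n 0
    have h1 : a n (0 - 1) = a n (0 + 1) := by simpa using a_neg n 1
    simp only [a, h1]
    push_cast at *
    have hn : (0:ℝ) ≤ n := by positivity
    have e : a n 0 / 2 + (a n 1 + a n 1) / 4 = a n 0 * (2 * n + 1) / (2 * n + 2) := by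
      rw [eq_div_iff (by positivity)]; linarith
    rw [e, div_pow, div_mul_eq_mul_div, div_le_one (by positivity)]
    nlinarith [mul_nonneg (sub_nonneg.2 ih) (show (0:ℝ) ≤ (2 * n + 1) * (2 * n + 3) by positivity)]

lemma a_amgm (n : ℕ) {s : ℝ} (hs : 0 < s) :
    a n 0 ≤ s / 2 * (1 / ((n:ℝ) + 1)) + 1 / (2 * s) := by
  have h := a_zero n
  have hn : (0:ℝ) ≤ n := by positivity
  have h0 := a_nonneg n 0
  have h2 : a n 0 ^ 2 * (n + 1) ≤ 1 := by nlinarith [sq_nonneg (a n 0)]
  have e : s / 2 * (1 / ((n:ℝ) + 1)) + 1 / (2 * s) = (s ^ 2 + (n + 1)) / (2 * s * (n + 1)) := by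
    field_simp
  rw [e, le_div_iff₀ (by positivity)]
  nlinarith [sq_nonneg (s - a n 0 * (n + 1)), mul_le_mul_of_nonneg_right h2 (show (0:ℝ) ≤ n + 1 by positivity)]

noncomputable def Po (t : ℝ) (f : ℕ → ℝ) : ℝ := Real.exp (-t) * ∑' n, t ^ n / n.factorial * f n

lemma sm (t : ℝ) {f : ℕ → ℝ} {C : ℝ} (h : ∀ n, |f n| ≤ C) :
    Summable fun n => t ^ n / n.factorial * f n := by
  refine Summable.of_norm_bounded ((Real.summable_pow_div_factorial |t|).mul_right C) fun n => ?_
  rw [Real.norm_eq_abs, abs_mul, abs_div, abs_pow, Nat.abs_cast]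
  exact mul_le_mul_of_nonneg_left (h n) (by positivity)

lemma hexp (t : ℝ) : HasSum (fun n => t ^ n / n.factorial) (Real.exp t) := by
  rw [Real.exp_eq_exp_ℝ]; exact NormedSpace.expSeries_div_hasSum_exp t

lemma Po_const (t c : ℝ) : Po t (fun _ => c) = c := by
  rw [Po, tsum_mul_right, (hexp t).tsum_eq, ← mul_assoc, ← Real.exp_add]; simp

lemma Po_mono {t : ℝ} (ht : 0 ≤ t) {f h : ℕ → ℝ} {C D : ℝ} (hf : ∀ n, |f n| ≤ C)
    (hh : ∀ n, |h n| ≤ D) (hle : ∀ n, f n ≤ h n) : Po t f ≤ Po t h :=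
  mul_le_mul_of_nonneg_left ((sm t hf).tsum_le_tsum
    (fun n => mul_le_mul_of_nonneg_left (hle n) (by positivity)) (sm t hh)) (Real.exp_pos _).le

lemma Po_lin (t x y : ℝ) {f h : ℕ → ℝ} {C D : ℝ} (hf : ∀ n, |f n| ≤ C)
    (hh : ∀ n, |h n| ≤ D) : Po t (fun n => x * f n + y * h n) = x * Po t f + y * Po t h := by
  have := (((sm t hf).hasSum.mul_left x).add ((sm t hh).hasSum.mul_left y)).tsum_eq
  unfold Po
  rw [show (fun n => t ^ n / n.factorial * (x * f n + y * h n)) = fun n =>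
    x * (t ^ n / n.factorial * f n) + y * (t ^ n / n.factorial * h n) from funext fun n => by ring,
    this]
  ring

lemma Po_abs {ι : Type} {t : ℝ} (ht : 0 ≤ t) (S : Finset ι) {f : ι → ℕ → ℝ} {h : ℕ → ℝ} {D : ℝ}
    (hh : ∀ n, |h n| ≤ D) (hle : ∀ n, ∑ k ∈ S, |f k n| ≤ h n) :
    ∑ k ∈ S, |Po t (f k)| ≤ Po t h := by
  have hb : ∀ k ∈ S, ∀ n, |f k n| ≤ D := fun k hk n =>
    (single_le_sum (f := fun k => |f k n|) (fun _ _ => abs_nonneg _) hk).trans
      ((hle n).trans ((le_abs_self _).trans (hh n)))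
  have hb' : ∀ k ∈ S, ∀ n, |(|f k n|)| ≤ D := fun k hk n => by rw [abs_abs]; exact hb k hk n
  have h1 : ∀ k ∈ S, |Po t (f k)| ≤ Po t (fun n => |f k n|) := fun k hk => by
    rw [abs_le]
    refine ⟨?_, Po_mono ht (hb k hk) (hb' k hk) fun n => le_abs_self _⟩
    have := Po_lin t (-1) 0 (hb' k hk) (hb' k hk)
    have h2 := Po_mono ht (f := fun n => -1 * |f k n| + 0 * |f k n|) (C := D)
      (fun n => by simpa using hb k hk n) (hb k hk) (fun n => by simpa using neg_abs_le (f k n))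
    linarith
  refine (sum_le_sum h1).trans ?_
  unfold Po
  rw [← mul_sum, ← Summable.tsum_finsetSum fun k hk => sm t (hb' k hk)]
  refine mul_le_mul_of_nonneg_left (Summable.tsum_le_tsum (fun n => ?_)
    (summable_sum fun k hk => sm t (hb' k hk)) (sm t hh)) (Real.exp_pos _).le
  rw [← mul_sum]
  exact mul_le_mul_of_nonneg_left (hle n) (by positivity)

lemma inv_bd (n : ℕ) : |1 / ((n:ℝ) + 1)| ≤ 1 := by
  rw [abs_of_nonneg (by positivity), div_le_one (by positivity)]; simp

lemma Po_inv {t : ℝ} (ht : 0 ≤ t) : Po t (fun n => 1 / ((n:ℝ) + 1)) ≤ 2 / (1 + t) := by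
  have h1 : Po t (fun n => 1 / ((n:ℝ) + 1)) ≤ 1 := by
    have := Po_mono ht inv_bd (h := fun _ => 1) (D := 1) (by simp)
      (fun n => (le_abs_self _).trans (inv_bd n))
    rwa [Po_const] at this
  have h2 : t * Po t (fun n => 1 / ((n:ℝ) + 1)) ≤ 1 := by
    have h := (hasSum_nat_add_iff' 1).2 (hexp t)
    have e : ∑' n : ℕ, t ^ n / n.factorial * (1 / ((n:ℝ) + 1)) * t = Real.exp t - 1 := by
      have : (fun n : ℕ => t ^ n / n.factorial * (1 / ((n:ℝ) + 1)) * t) =
          fun n => t ^ (n + 1) / (n + 1).factorial := funext fun n => by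
        rw [Nat.factorial_succ]; push_cast; field_simp; ring
      rw [this, h.tsum_eq]; simp
    rw [tsum_mul_right] at e
    unfold Po
    have e2 : Real.exp (-t) * Real.exp t = 1 := by rw [← Real.exp_add]; simp
    have := Real.exp_pos (-t)
    calc _ = Real.exp (-t) * ((∑' n : ℕ, t ^ n / n.factorial * (1 / ((n:ℝ) + 1))) * t) := by ring
      _ ≤ 1 := by rw [e]; linarith
  rw [le_div_iff₀ (by positivity)]
  linarith

lemma Po_deriv (t : ℝ) {f : ℕ → ℝ} {C : ℝ} (h : ∀ n, |f n| ≤ C) :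
    HasDerivAt (fun t => Po t f) (Po t (fun n => f (n + 1)) - Po t f) t := by
  have hC : 0 ≤ C := (abs_nonneg _).trans (h 0)
  set R := |t| + 1 with hR
  have h1 : HasDerivAt (fun t : ℝ => ∑' n, t ^ (n + 1) / (n + 1).factorial * f (n + 1))
      (∑' n, t ^ n / n.factorial * f (n + 1)) t := by
    refine hasDerivAt_tsum_of_isPreconnected (u := fun n => R ^ n / n.factorial * C)
      (t := Set.Ioo (-R) R) (y₀ := t)
      (g := fun n y => y ^ (n + 1) / (n + 1).factorial * f (n + 1))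
      (g' := fun n y => y ^ n / n.factorial * f (n + 1))
      ((Real.summable_pow_div_factorial R).mul_right C) isOpen_Ioo isPreconnected_Ioo
      (fun n y _ => ?_) (fun n y hy => ?_) ?_ ?_ ?_
    · have := ((hasDerivAt_pow (n + 1) y).div_const ((n + 1).factorial : ℝ)).mul_const (f (n + 1))
      refine this.congr_deriv ?_
      rw [Nat.factorial_succ]; push_cast; field_simp
    · rw [Real.norm_eq_abs, abs_mul, abs_div, abs_pow, Nat.abs_cast]
      have : |y| ≤ R := abs_le.2 ⟨hy.1.le, hy.2.le⟩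
      gcongr
      exact h _
    · constructor <;> linarith [le_abs_self t, neg_abs_le t]
    · exact (summable_nat_add_iff (f := fun n => t ^ n / n.factorial * f n) 1).2 (sm t h)
    · constructor <;> linarith [le_abs_self t, neg_abs_le t]
  have h2 : HasDerivAt (fun t : ℝ => ∑' n, t ^ n / n.factorial * f n)
      (∑' n, t ^ n / n.factorial * f (n + 1)) t := by
    refine (h1.const_add (f 0)).congr_of_eventuallyEq (Eventually.of_forall fun y => ?_)
    simp only
    rw [(sm y h).tsum_eq_zero_add]; simp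
  have h3 := ((hasDerivAt_neg t).exp).mul h2
  refine h3.congr_deriv ?_
  unfold Po; ring

noncomputable def b (t : ℝ) (k : ℤ) : ℝ := Po t fun n => a n k

noncomputable def u (t : ℝ) : ℝ := 1 / Real.sqrt (1 + t)

lemma a_bd (k : ℤ) (n : ℕ) : |a n k| ≤ 1 := by rw [abs_of_nonneg (a_nonneg n k)]; exact a_le1 n k

lemma b_deriv (t : ℝ) (k : ℤ) :
    HasDerivAt (fun t => b t k) ((b t (k + 1) - b t k + (b t (k + -1) - b t k)) / 4) t := by
  refine (Po_deriv t (a_bd k)).congr_deriv ?_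
  have h1 := Po_lin t (1/4) (1/4) (a_bd (k + 1)) (a_bd (k + -1))
  have h2 := Po_lin t (1/2) 1 (a_bd k) (h := fun n => 1/4 * a n (k + 1) + 1/4 * a n (k + -1)) (D := 1)
    (fun n => by
      have := a_bd (k + 1) n; have := a_bd (k + -1) n
      rw [abs_le] at *; constructor <;> linarith)
  have e : (fun n => a (n + 1) k) =
      fun n => 1/2 * a n k + 1 * (1/4 * a n (k + 1) + 1/4 * a n (k + -1)) :=
    funext fun n => by simp only [a, sub_eq_add_neg]; ring
  rw [e, h2, h1]; unfold b; ring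

lemma b_zero (k : ℤ) : b 0 k = if k = 0 then 1 else 0 := by
  unfold b Po
  rw [tsum_eq_single 0 (fun n hn => by simp [hn])]; simp [a]

section
variable {t : ℝ} (ht : 0 ≤ t)
include ht

lemma b_nonneg (k : ℤ) : 0 ≤ b t k := by
  have := Po_mono ht (f := fun _ => 0) (C := 0) (by simp) (a_bd k) (fun n => a_nonneg n k)
  rwa [Po_const] at this

lemma b_far (k : ℤ) : b t k ≤ 1 / ((k.natAbs:ℝ) + 1) := by
  have := Po_mono ht (a_bd k) (h := fun _ => 1 / ((k.natAbs:ℝ) + 1)) (fun _ => inv_bd _)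
    (fun n => a_far n k)
  rwa [Po_const] at this

lemma b_le1 (k : ℤ) : b t k ≤ 1 := (b_far ht k).trans ((le_abs_self _).trans (inv_bd _))

lemma b_sum (S : Finset ℤ) : ∑ k ∈ S, b t k ≤ 1 := by
  have := Po_abs ht S (f := fun k n => a n k) (h := fun _ => 1) (D := 1) (by simp)
    (fun n => by simpa only [abs_of_nonneg (a_nonneg _ _)] using a_sum n S)
  rw [Po_const] at this
  exact (sum_le_sum fun k _ => le_abs_self _).trans this

lemma u_sq : u t ^ 2 = 1 / (1 + t) := by
  rw [u, div_pow, Real.sq_sqrt (by linarith), one_pow]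

lemma b_sup (k : ℤ) : b t k ≤ 2 * u t := by
  have hs : 0 < Real.sqrt (1 + t) := Real.sqrt_pos.2 (by linarith)
  set s := Real.sqrt (1 + t) with hsd
  have hs2 : s ^ 2 = 1 + t := Real.sq_sqrt (by linarith)
  have h1 := Po_lin t (s / 2) (1 / (2 * s)) inv_bd (h := fun _ => 1) (D := 1) (by simp)
  have h2 := Po_mono ht (a_bd k) (h := fun n => s / 2 * (1 / ((n:ℝ) + 1)) + 1 / (2 * s) * 1)
    (D := s / 2 + 1 / (2 * s)) (fun n => by
      rw [abs_of_nonneg (by positivity), mul_one]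
      have := (le_abs_self _).trans (inv_bd n)
      nlinarith) (fun n => by rw [mul_one]; exact (a_le0 n k).trans (a_amgm n hs))
  rw [h1, Po_const] at h2
  have h3 := Po_inv ht
  rw [← hs2] at h3
  have h4 : s / 2 * (2 / s ^ 2) + 1 / (2 * s) * 1 ≤ 2 * (1 / s) := by
    have : s / 2 * (2 / s ^ 2) + 1 / (2 * s) * 1 = 3 / 2 * (1 / s) := by field_simp; ring
    rw [this]; have : 0 < 1 / s := by positivity
    linarith
  have h5 := mul_le_mul_of_nonneg_left h3 (show 0 ≤ s / 2 by positivity)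
  unfold b u
  linarith

omit ht in
lemma b_sub (k l : ℤ) : b t k - b t l = Po t fun n => a n k - a n l := by
  have := Po_lin t 1 (-1) (a_bd k) (a_bd l)
  simp only [one_mul, neg_mul, ← sub_eq_add_neg] at this
  rw [this]; rfl

lemma b_grad (k s : ℤ) (hs : s = 1 ∨ s = -1) : |b t (k + s) - b t k| ≤ 4 * u t ^ 2 := by
  have h := Po_abs ht ({0} : Finset ℕ) (f := fun _ n => a n (k + s) - a n k)
    (h := fun n => 2 * (1 / ((n:ℝ) + 1)) + 0 * (1 / ((n:ℝ) + 1))) (D := 2)
    (fun n => by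
      have := inv_bd n
      rw [zero_mul, add_zero, abs_mul, abs_two]; linarith)
    (fun n => by simpa using a_grad n k s hs)
  rw [Po_lin t 2 0 inv_bd inv_bd, sum_singleton, ← b_sub] at h
  have h2 := Po_inv ht
  rw [u_sq ht]
  have : 2 / (1 + t) = 2 * (1 / (1 + t)) := by ring
  linarith

lemma b_tv (S : Finset ℤ) (s : ℤ) (hs : s = 1 ∨ s = -1) :
    ∑ k ∈ S, |b t (k + s) - b t k| ≤ 2 * b t 0 := by
  have h := Po_abs ht S (f := fun k n => a n (k + s) - a n k)
    (h := fun n => 2 * a n 0 + 0 * a n 0) (D := 2)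
    (fun n => by
      have := a_bd 0 n
      rw [zero_mul, add_zero, abs_mul, abs_two]; linarith)
    (fun n => by simpa using a_tv n S s hs)
  rw [Po_lin t 2 0 (a_bd 0) (a_bd 0)] at h
  simp only [b_sub]
  simpa [b] using h

end
end Pool.Agent.H.MP_b041da_pr
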