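import Mathlib
namespace Pool.Agent.H.MP_b041da_pr

variable {d : ℕ}

/-- the unit vector of a direction -/
def vec (e : Fin d × Bool) : Fin d → ℤ := Pi.single e.1 (if e.2 then 1 else -1)

/-- one step of rotor walk on pairs (position, rotor configuration) -/
def step (m : (Fin d → ℤ) → Equiv.Perm (Fin d × Bool))
    (s : (Fin d → ℤ) × ((Fin d → ℤ) → Fin d × Bool)) :
    (Fin d → ℤ) × ((Fin d → ℤ) → Fin d × Bool) :=
  (s.1 + vec (s.2 s.1), Function.update s.2 s.1 (m s.1 (s.2 s.1)))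

/-- position at time k of the walk from the origin -/
def pos (m : (Fin d → ℤ) → Equiv.Perm (Fin d × Bool)) (ρ : (Fin d → ℤ) → Fin d × Bool) (k : ℕ) :
    Fin d → ℤ := ((step m)^[k] (0, ρ)).1

/-- the configuration left by a particle that runs until it returns to the origin or escapes -/
noncomputable def next (m : (Fin d → ℤ) → Equiv.Perm (Fin d × Bool))
    (ρ : (Fin d → ℤ) → Fin d × Bool) (x : Fin d → ℤ) : Fin d × Bool :=
  (m x ^ {k | pos m ρ k = x ∧ ∀ i, 1 ≤ i → i ≤ k → pos m ρ i ≠ 0}.ncard) (ρ x)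

/-- number of escapes among the first n particles -/
noncomputable def esc (m : (Fin d → ℤ) → Equiv.Perm (Fin d × Bool))
    (ρ : (Fin d → ℤ) → Fin d × Bool) (n : ℕ) : ℕ :=
  {j | j < n ∧ ∀ k, 1 ≤ k → pos m ((next m)^[j] ρ) k ≠ 0}.ncard

end Pool.Agent.H.MP_b041da_pr
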