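import Mathlib
import Pool.Agent.H.MP_b041da_pr.A
import Pool.Agent.H.MP_b041da_pr.Defs
open Finset Filter Topology MeasureTheory
namespace Pool.Agent.H.MP_b041da_pr

variable {d : ℕ}

noncomputable def p (t : ℝ) (x : Fin d → ℤ) : ℝ := ∏ i, b t (x i)

noncomputable def g (x : Fin d → ℤ) : ℝ := ∫ t in Set.Ioi (0:ℝ), p t x

noncomputable def eta (R : ℕ) : ℝ := ∫ t in Set.Ioi (0:ℝ), min (16 * u t ^ 3) (3 / ((R:ℝ) + 1))

lemma p_eq (t : ℝ) (x : Fin d → ℤ) (i : Fin d) :
    p t x = b t (x i) * ∏ l ∈ univ.erase i, b t (x l) :=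
  (mul_prod_erase _ _ (mem_univ i)).symm

lemma p_shift (t : ℝ) (x : Fin d → ℤ) (i : Fin d) (s : ℤ) :
    p t (x + Pi.single i s) = b t (x i + s) * ∏ l ∈ univ.erase i, b t (x l) := by
  rw [p_eq t _ i]
  congr 1
  · simp
  · exact prod_congr rfl fun l hl => by simp [Pi.single_eq_of_ne (ne_of_mem_erase hl)]

lemma sgn (c : Bool) : (if c then (1:ℤ) else -1) = 1 ∨ (if c then (1:ℤ) else -1) = -1 := by
  cases c <;> simp

lemma p_deriv (t : ℝ) (x : Fin d → ℤ) :
    HasDerivAt (fun t => p t x) ((∑ e : Fin d × Bool, (p t (x + vec e) - p t x)) / 4) t := by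
  have h := HasDerivAt.fun_finsetProd (u := univ) (f := fun i t => b t (x i))
    (fun i _ => b_deriv t (x i))
  refine h.congr_deriv ?_
  rw [Fintype.sum_prod_type, sum_div]
  refine sum_congr rfl fun i _ => ?_
  simp only [Fintype.sum_bool, vec, if_true, Bool.false_eq_true, if_false, p_shift, smul_eq_mul]
  rw [p_eq t x i]; ring

lemma p_cont (x : Fin d → ℤ) : Continuous fun t => p t x :=
  continuous_iff_continuousAt.2 fun t => (p_deriv t x).continuousAt

section
variable {t : ℝ} (ht : 0 ≤ t)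
include ht

lemma pr_nonneg (S : Finset (Fin d)) (x : Fin d → ℤ) : 0 ≤ ∏ l ∈ S, b t (x l) :=
  prod_nonneg fun _ _ => b_nonneg ht _

lemma pr_sub {S T : Finset (Fin d)} (h : T ⊆ S) (x : Fin d → ℤ) :
    ∏ l ∈ S, b t (x l) ≤ ∏ l ∈ T, b t (x l) := by
  rw [← prod_sdiff h]
  exact mul_le_of_le_one_left (pr_nonneg ht _ _)
    (prod_le_one (fun _ _ => b_nonneg ht _) fun _ _ => b_le1 ht _)

lemma pr_pow (S : Finset (Fin d)) (k : ℕ) (h : k ≤ S.card) (x : Fin d → ℤ) :
    ∏ l ∈ S, b t (x l) ≤ (2 * u t) ^ k := by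
  obtain ⟨T, h1, rfl⟩ := exists_subset_card_eq h
  refine (pr_sub ht h1 x).trans ?_
  rw [← prod_const]
  exact prod_le_prod (fun _ _ => b_nonneg ht _) fun _ _ => b_sup ht _

lemma pr_one {S : Finset (Fin d)} {j : Fin d} (h : j ∈ S) (x : Fin d → ℤ) :
    ∏ l ∈ S, b t (x l) ≤ 1 / (((x j).natAbs : ℝ) + 1) := by
  have := pr_sub ht (singleton_subset_iff.2 h) x
  rw [prod_singleton] at this
  exact this.trans (b_far ht _)

omit ht in
lemma u_nonneg : 0 ≤ u t := by unfold u; positivity

lemma p_le (hd : 3 ≤ d) (x : Fin d → ℤ) (j : Fin d) :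
    p t x ≤ min (16 * u t ^ 3) (3 / (((x j).natAbs : ℝ) + 1)) := by
  have h1 := pr_pow ht univ 3 (by simpa using hd) x
  have h2 := pr_one ht (mem_univ j) x
  have := pow_nonneg (u_nonneg (t := t)) 3
  refine le_min (h1.trans (by nlinarith)) (h2.trans (by gcongr; norm_num))

lemma grad_far (k s : ℤ) (hs : s = 1 ∨ s = -1) :
    |b t (k + s) - b t k| ≤ 3 / ((k.natAbs : ℝ) + 1) := by
  have h1 := b_far ht (k + s)
  have h2 := b_far ht k
  have h3 := b_nonneg ht (k + s)
  have h4 := b_nonneg ht k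
  have h5 : 1 / (((k + s).natAbs : ℝ) + 1) ≤ 2 / ((k.natAbs : ℝ) + 1) := by
    rw [div_le_div_iff₀ (by positivity) (by positivity)]
    have : k.natAbs ≤ (k + s).natAbs + 1 := by omega
    have : (k.natAbs : ℝ) ≤ (k + s).natAbs + 1 := by exact_mod_cast this
    have : (0:ℝ) ≤ (k + s).natAbs := by positivity
    linarith
  have e : 3 / ((k.natAbs : ℝ) + 1) = 2 / ((k.natAbs : ℝ) + 1) + 1 / ((k.natAbs : ℝ) + 1) := by ring
  have : 0 ≤ 2 / ((k.natAbs : ℝ) + 1) := by positivity
  have : 0 ≤ 1 / ((k.natAbs : ℝ) + 1) := by positivity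
  rw [abs_le]; constructor <;> linarith

lemma col_pt (hd : 3 ≤ d) (i₀ j : Fin d) (hj : j ≠ i₀) (c : Fin d → ℤ) (S : Finset (Fin d → ℤ))
    (hS : ∀ x ∈ S, Function.update x i₀ 0 = c) (e : Fin d × Bool) :
    ∑ x ∈ S, |p t (x + vec e) - p t x| ≤ min (16 * u t ^ 3) (3 / (((c j).natAbs : ℝ) + 1)) := by
  obtain ⟨i, β⟩ := e
  have hs := sgn β
  simp only [vec]
  generalize (if β = true then (1:ℤ) else -1) = s at hs
  have hc : ∀ x ∈ S, ∀ l, l ≠ i₀ → x l = c l := fun x hx l hl => by
    rw [← hS x hx, Function.update_of_ne hl]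
  have inj : Set.InjOn (fun x : Fin d → ℤ => x i₀) S := fun x hx y hy h => funext fun l => by
    by_cases hl : l = i₀
    · rw [hl]; exact h
    · rw [hc x hx l hl, hc y hy l hl]
  have hu := u_nonneg (t := t)
  have e1 : ∀ x, |p t (x + Pi.single i s) - p t x| =
      |b t (x i + s) - b t (x i)| * ∏ l ∈ univ.erase i, b t (x l) := fun x => by
    rw [p_shift, p_eq t x i, ← sub_mul, abs_mul, abs_of_nonneg (pr_nonneg ht _ _)]
  simp only [e1]
  by_cases hi : i = i₀
  · subst hi
    have e2 : ∑ x ∈ S, |b t (x i + s) - b t (x i)| * ∏ l ∈ univ.erase i, b t (x l) =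
        (∑ k ∈ S.image (fun x => x i), |b t (k + s) - b t k|) * ∏ l ∈ univ.erase i, b t (c l) := by
      rw [sum_image inj, sum_mul]
      exact sum_congr rfl fun x hx => by
        rw [prod_congr rfl fun l hl => by rw [hc x hx l (ne_of_mem_erase hl)]]
    rw [e2]
    have h1 := b_tv ht (S.image (fun x => x i)) s hs
    have h2 := pr_pow ht (univ.erase i) 2 (by simp; omega) c
    have h3 := pr_one ht (S := univ.erase i) (j := j) (by simp [hj]) c
    have h4 := b_sup ht 0
    have h5 := b_le1 ht 0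
    have h6 := pr_nonneg ht (univ.erase i) c
    refine le_min ?_ ?_
    · calc _ ≤ (4 * u t) * (2 * u t) ^ 2 := mul_le_mul (by linarith) h2 h6 (by positivity)
        _ = _ := by ring
    · calc _ ≤ 3 * (1 / (((c j).natAbs : ℝ) + 1)) := mul_le_mul (by linarith) h3 h6 (by positivity)
        _ = _ := by ring
  · have hm : i₀ ∈ univ.erase i := by simp [Ne.symm hi]
    have e2 : ∑ x ∈ S, |b t (x i + s) - b t (x i)| * ∏ l ∈ univ.erase i, b t (x l) =
        (∑ k ∈ S.image (fun x => x i₀), b t k) *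
          (|b t (c i + s) - b t (c i)| * ∏ l ∈ (univ.erase i).erase i₀, b t (c l)) := by
      rw [sum_image inj, sum_mul]
      exact sum_congr rfl fun x hx => by
        rw [← mul_prod_erase _ _ hm, hc x hx i hi,
          prod_congr rfl fun l hl => by rw [hc x hx l (ne_of_mem_erase hl)]]
        ring
    rw [e2]
    have h6 := pr_nonneg ht ((univ.erase i).erase i₀) c
    refine (mul_le_of_le_one_left (by positivity) (b_sum ht _)).trans (le_min ?_ ?_)
    · have h2 := pr_pow ht ((univ.erase i).erase i₀) 1 (by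
        rw [card_erase_of_mem hm]; simp; omega) c
      have := pow_nonneg hu 3
      calc _ ≤ (4 * u t ^ 2) * (2 * u t) ^ 1 := mul_le_mul (b_grad ht _ _ hs) h2 h6 (by positivity)
        _ ≤ _ := by nlinarith
    · by_cases hji : j = i
      · subst hji
        have h2 := pr_pow ht ((univ.erase j).erase i₀) 0 (by simp) c
        calc _ ≤ (3 / (((c j).natAbs : ℝ) + 1)) * (2 * u t) ^ 0 :=
              mul_le_mul (grad_far ht _ _ hs) h2 h6 (by positivity)
          _ = _ := by simp
      · have h3 := pr_one ht (S := (univ.erase i).erase i₀) (j := j) (by simp [hj, hji]) c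
        have h7 : |b t (c i + s) - b t (c i)| ≤ 3 := by
          have := b_nonneg ht (c i + s); have := b_nonneg ht (c i)
          have := b_le1 ht (c i + s); have := b_le1 ht (c i)
          rw [abs_le]; constructor <;> linarith
        calc _ ≤ 3 * (1 / (((c j).natAbs : ℝ) + 1)) := mul_le_mul h7 h3 h6 (by positivity)
          _ = _ := by ring

end

lemma u_int : IntegrableOn (fun t => 16 * u t ^ 3) (Set.Ioi (0:ℝ)) := by
  have h := (integrable_one_add_norm (E := ℝ) (μ := volume) (r := 3/2)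
    (by simp; norm_num)).integrableOn (s := Set.Ioi 0)
  refine (IntegrableOn.congr_fun h (fun t ht => ?_) measurableSet_Ioi).const_mul 16
  have ht : (0:ℝ) < t := ht
  simp only [u, Real.norm_eq_abs, abs_of_pos ht]
  rw [Real.sqrt_eq_rpow, one_div, ← Real.rpow_neg (by linarith), ← Real.rpow_natCast,
    ← Real.rpow_mul (by linarith)]
  norm_num

lemma u_meas : Measurable u := by unfold u; fun_prop

lemma min_int (r : ℝ) (hr : 0 ≤ r) :
    IntegrableOn (fun t => min (16 * u t ^ 3) r) (Set.Ioi (0:ℝ)) := by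
  refine u_int.mono' (((u_meas.pow_const 3).const_mul 16).min measurable_const).aestronglyMeasurable
    (Eventually.of_forall fun t => ?_)
  have := pow_nonneg (u_nonneg (t := t)) 3
  rw [Real.norm_eq_abs, abs_of_nonneg (le_min (by positivity) hr)]
  exact min_le_left _ _

lemma eta_anti : Antitone eta := fun a b h =>
  integral_mono (min_int _ (by positivity)) (min_int _ (by positivity)) fun t =>
    min_le_min le_rfl (by gcongr)

lemma eta_lim : Tendsto eta atTop (𝓝 0) := by
  have := tendsto_integral_of_dominated_convergence (μ := volume.restrict (Set.Ioi (0:ℝ)))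
    (F := fun (R : ℕ) t => min (16 * u t ^ 3) (3 / ((R:ℝ) + 1))) (f := fun _ => 0)
    (fun t => 16 * u t ^ 3) (fun R => (min_int _ (by positivity)).aestronglyMeasurable) u_int
    (fun R => Eventually.of_forall fun t => by
      have := pow_nonneg (u_nonneg (t := t)) 3
      rw [Real.norm_eq_abs, abs_of_nonneg (le_min (by positivity) (by positivity))]
      exact min_le_left _ _)
    (Eventually.of_forall fun t => by
      have := pow_nonneg (u_nonneg (t := t)) 3
      have h : Tendsto (fun R : ℕ => 3 / ((R:ℝ) + 1)) atTop (𝓝 0) := by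
        simpa [div_eq_mul_inv] using
          (tendsto_one_div_add_atTop_nhds_zero_nat (𝕜 := ℝ)).const_mul 3
      have h2 := (tendsto_const_nhds (x := 16 * u t ^ 3)).min h
      rwa [min_eq_right (by positivity)] at h2)
  rw [integral_zero] at this
  exact this

variable (hd : 3 ≤ d)
include hd

lemma p_int (x : Fin d → ℤ) : IntegrableOn (fun t => p t x) (Set.Ioi (0:ℝ)) := by
  refine u_int.mono' (p_cont x).aestronglyMeasurable
    ((ae_restrict_iff' measurableSet_Ioi).2 (Eventually.of_forall fun t ht => ?_))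
  rw [Real.norm_eq_abs, abs_of_nonneg (show 0 ≤ p t x from pr_nonneg (le_of_lt ht) _ _)]
  exact (p_le (le_of_lt ht) hd x ⟨0, by omega⟩).trans (min_le_left _ _)

omit hd in
lemma g_nonneg (x : Fin d → ℤ) : 0 ≤ g x :=
  setIntegral_nonneg measurableSet_Ioi fun _ ht => pr_nonneg (le_of_lt ht) _ _

lemma g_le (x : Fin d → ℤ) (j : Fin d) : g x ≤ eta (x j).natAbs :=
  setIntegral_mono_on (p_int hd x) (min_int _ (by positivity)) measurableSet_Ioi
    fun _ ht => p_le (le_of_lt ht) hd x j

lemma g_lap (x : Fin d → ℤ) :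
    ∑ e : Fin d × Bool, (g (x + vec e) - g x) = if x = 0 then -4 else 0 := by
  have hi : ∀ e : Fin d × Bool,
      IntegrableOn (fun t => p t (x + vec e) - p t x) (Set.Ioi (0:ℝ)) :=
    fun e => (p_int hd _).sub (p_int hd _)
  have hl : Tendsto (fun t => p t x) atTop (𝓝 0) := by
    have hu : Tendsto u atTop (𝓝 0) := by
      unfold u
      exact tendsto_const_nhds.div_atTop
        (Real.tendsto_sqrt_atTop.comp (tendsto_atTop_add_const_left _ _ tendsto_id))
    have h3 : Tendsto (fun t => 16 * u t ^ 3) atTop (𝓝 0) := by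
      simpa using (hu.pow 3).const_mul 16
    refine squeeze_zero' ?_ ?_ h3
    · filter_upwards [eventually_ge_atTop 0] with t ht using pr_nonneg ht _ _
    · filter_upwards [eventually_ge_atTop 0] with t ht using
        (p_le ht hd x ⟨0, by omega⟩).trans (min_le_left _ _)
  have h := integral_Ioi_of_hasDerivAt_of_tendsto' (a := 0) (fun t _ => p_deriv t x)
    ((integrable_finsetSum _ fun e _ => hi e).div_const 4) hl
  rw [integral_div, integral_finsetSum _ fun e _ => hi e] at h
  have e1 : ∑ e : Fin d × Bool, (g (x + vec e) - g x) =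
      ∑ e : Fin d × Bool, ∫ t in Set.Ioi (0:ℝ), (p t (x + vec e) - p t x) :=
    sum_congr rfl fun e _ => (integral_sub (p_int hd _) (p_int hd _)).symm
  have e2 : p 0 x = if x = 0 then 1 else 0 := by
    simp only [p, b_zero, prod_ite_zero, prod_const_one, mem_univ, forall_const, funext_iff,
      Pi.zero_apply]
  rw [e1]
  rw [e2] at h
  split_ifs at h ⊢ <;> linarith

lemma g_col (i₀ j : Fin d) (hj : j ≠ i₀) (c : Fin d → ℤ) (S : Finset (Fin d → ℤ))
    (hS : ∀ x ∈ S, Function.update x i₀ 0 = c) (e : Fin d × Bool) :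
    ∑ x ∈ S, |g (x + vec e) - g x| ≤ eta (c j).natAbs := by
  have hi : ∀ x : Fin d → ℤ,
      IntegrableOn (fun t => |p t (x + vec e) - p t x|) (Set.Ioi (0:ℝ)) :=
    fun x => ((p_int hd _).sub (p_int hd _)).abs
  calc _ ≤ ∑ x ∈ S, ∫ t in Set.Ioi (0:ℝ), |p t (x + vec e) - p t x| := sum_le_sum fun x _ => by
        rw [g, g, ← integral_sub (p_int hd _) (p_int hd _)]
        exact abs_integral_le_integral_abs
    _ = ∫ t in Set.Ioi (0:ℝ), ∑ x ∈ S, |p t (x + vec e) - p t x| :=
        (integral_finsetSum _ fun x _ => hi x).symm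
    _ ≤ _ := setIntegral_mono_on (integrable_finsetSum _ fun x _ => hi x)
        (min_int _ (by positivity)) measurableSet_Ioi
        fun _ ht => col_pt (le_of_lt ht) hd i₀ j hj c S hS e

lemma g_lim : Tendsto (g : (Fin d → ℤ) → ℝ) cofinite (𝓝 0) := by
  rw [Metric.tendsto_nhds]
  intro ε hε
  obtain ⟨R, hR⟩ := eventually_atTop.1 (eta_lim.eventually (gt_mem_nhds hε))
  refine (Set.Finite.pi' (t := fun _ : Fin d => Set.Icc (-(R:ℤ)) R)
    fun _ => Set.finite_Icc _ _).subset fun x hx j => ?_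
  by_contra h
  apply hx
  show dist (g x) 0 < ε
  rw [Real.dist_eq, sub_zero, abs_of_nonneg (g_nonneg x)]
  refine (g_le hd x j).trans_lt (hR _ ?_)
  simp only [Set.mem_Icc] at h
  omega

lemma g_cols (i₀ : Fin d) {ε : ℝ} (hε : 0 < ε) : ∃ K : ℝ, ∀ (C S : Finset (Fin d → ℤ)),
    (∀ x ∈ S, Function.update x i₀ 0 ∈ C) →
    ∑ x ∈ S, ∑ e : Fin d × Bool, |g (x + vec e) - g x| ≤ ε * C.card + K := by
  classical
  have hd' : (0:ℝ) < 2 * d := by have : (0:ℝ) < d := by exact_mod_cast (by omega : 0 < d)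
                                 linarith
  obtain ⟨R, hR⟩ := eventually_atTop.1 (eta_lim.eventually (gt_mem_nhds (div_pos hε hd')))
  set B : Finset (Fin d → ℤ) := Fintype.piFinset fun _ => Icc (-(R:ℤ)) R with hB
  have h0 : 0 ≤ eta 0 := le_of_tendsto' eta_lim fun n => eta_anti (Nat.zero_le n)
  refine ⟨B.card * (2 * d * eta 0), fun C S hS => ?_⟩
  rw [← sum_fiberwise_of_maps_to hS]
  have key : ∀ c ∈ C, ∑ x ∈ S with Function.update x i₀ 0 = c,
      ∑ e : Fin d × Bool, |g (x + vec e) - g x| ≤ ε + if c ∈ B then 2 * d * eta 0 else 0 := by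
    intro c _
    rw [sum_comm]
    have h1 : ∀ j, j ≠ i₀ → ∑ e : Fin d × Bool, ∑ x ∈ S with Function.update x i₀ 0 = c,
        |g (x + vec e) - g x| ≤ 2 * d * eta (c j).natAbs := fun j hj => by
      refine (sum_le_card_nsmul _ _ _ fun e _ =>
        g_col hd i₀ j hj c _ (fun x hx => (mem_filter.1 hx).2) e).trans (le_of_eq ?_)
      simp [mul_comm]
    split_ifs with hc
    · obtain ⟨j, hj⟩ : ∃ j : Fin d, j ≠ i₀ := by
        have : Nontrivial (Fin d) := Fin.nontrivial_iff_two_le.2 (by omega)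
        exact exists_ne i₀
      have := mul_le_mul_of_nonneg_left (eta_anti (Nat.zero_le (c j).natAbs)) hd'.le
      linarith [h1 j hj]
    · by_cases hne : (S.filter fun x => Function.update x i₀ 0 = c) = ∅
      · simp [hne, hε.le]
      obtain ⟨x, hx⟩ := nonempty_iff_ne_empty.2 hne
      have hx0 : c i₀ = 0 := by rw [← (mem_filter.1 hx).2]; simp
      simp only [hB, Fintype.mem_piFinset, not_forall, mem_Icc] at hc
      obtain ⟨j, hj⟩ := hc
      have hj0 : j ≠ i₀ := by rintro rfl; omega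
      have := hR (c j).natAbs (by omega)
      rw [lt_div_iff₀ hd'] at this
      linarith [h1 j hj0]
  refine (sum_le_sum key).trans ?_
  rw [sum_add_distrib, sum_const, nsmul_eq_mul, mul_comm, ← sum_filter, sum_const, nsmul_eq_mul]
  gcongr
  exact fun c hc => (mem_filter.1 hc).2

end Pool.Agent.H.MP_b041da_pr
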