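import Mathlib
import Pool.Agent.H.MP_b041da_pr.B
import Pool.Agent.Lib.helper3.MC
open Finset Filter Topology MeasureTheory ProbabilityTheory
open scoped ENNReal
namespace Pool.Agent.H.MP_b041da_pr
open Pool.Agent.Lib.helper3

variable {d : ℕ}

noncomputable def av : ℕ → (Fin d → ℤ) → ℝ
  | 0, _ => 1
  | n + 1, x => (∑ e : Fin d × Bool, if x + vec e = 0 then 0 else av n (x + vec e)) / (2 * d)

lemma av_nonneg (n : ℕ) : ∀ x : Fin d → ℤ, 0 ≤ av n x := by
  induction n with
  | zero => simp [av]
  | succ n ih =>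
    exact fun x => div_nonneg (sum_nonneg fun e _ => by split_ifs <;> simp [ih]) (by positivity)

lemma av_succ_le (n : ℕ) : ∀ x : Fin d → ℤ, av (n + 1) x ≤ av n x := by
  induction n with
  | zero =>
    refine fun x => div_le_one_of_le₀ ((sum_le_card_nsmul _ _ 1 fun e _ => ?_).trans
      (by simp [mul_comm])) (by positivity)
    split_ifs <;> simp [av]
  | succ n ih =>
    refine fun x => div_le_div_of_nonneg_right (sum_le_sum fun e _ => ?_) (by positivity)
    split_ifs <;> simp [ih]

lemma av_anti (x : Fin d → ℤ) : Antitone fun n => av n x :=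
  antitone_nat_of_succ_le fun n => av_succ_le n x

variable (hd : 3 ≤ d)
include hd

lemma dpos : (0:ℝ) < 2 * d := by
  have : (0:ℝ) < d := by exact_mod_cast (by omega : 0 < d)
  linarith

omit hd in
lemma sum_sub (f : Fin d × Bool → ℝ) (c : ℝ) : ∑ e, (f e - c) = ∑ e, f e - 2 * d * c := by
  rw [sum_sub_distrib]; simp [mul_comm]

lemma g_pos : 0 < g (0 : Fin d → ℤ) := by
  have h := g_lap hd (0 : Fin d → ℤ)
  rw [sum_sub, if_pos rfl] at h
  have : 0 ≤ ∑ e : Fin d × Bool, g (0 + vec e) := sum_nonneg fun _ _ => g_nonneg _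
  have h2 := dpos hd
  by_contra h3
  nlinarith [not_lt.1 h3]

lemma maxp (D : (Fin d → ℤ) → ℝ) (h0 : D 0 = 0) (hl : Tendsto D cofinite (𝓝 0))
    (hh : ∀ x, x ≠ 0 → ∑ e : Fin d × Bool, (D (x + vec e) - D x) = 0) (x : Fin d → ℤ) :
    D x ≤ 0 := by
  by_contra hx
  have hx := not_le.1 hx
  have hf : {y | D x ≤ D y}.Finite :=
    (hl.eventually (gt_mem_nhds hx)).subset fun y hy => by simpa using hy
  obtain ⟨y, hy, hy2⟩ := Set.exists_max_image _ D hf ⟨x, le_refl (D x)⟩
  have hmax : ∀ z, D z ≤ D y := fun z => by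
    by_contra hz
    have hz := not_le.1 hz
    exact absurd (hy2 z (show D x ≤ D z from le_trans hy hz.le)) (not_le.2 hz)
  have hf2 : {z | D z = D y}.Finite := hf.subset fun z hz => le_trans hy (le_of_eq hz.symm)
  set i : Fin d := ⟨0, by omega⟩
  obtain ⟨z, hz, hz2⟩ := Set.exists_max_image _ (fun z => z i) hf2 ⟨y, rfl⟩
  have hz : D z = D y := hz
  have hz0 : z ≠ 0 := by rintro rfl; have : D x ≤ D y := hy; linarith
  have h1 := (sum_eq_zero_iff_of_nonpos (fun e _ => by linarith [hmax (z + vec e)])).1 (hh z hz0)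
    (i, true) (mem_univ _)
  have h2 := hz2 _ (show D (z + vec (i, true)) = D y by linarith)
  simp [vec] at h2

lemma av_lim : Tendsto (fun n => av n (0 : Fin d → ℤ)) atTop (𝓝 (4 / (2 * d * g (0 : Fin d → ℤ)))) := by
  have gp := g_pos hd
  have dp := dpos hd
  set L : (Fin d → ℤ) → ℝ := fun x => ⨅ n, av n x with hL
  have lim : ∀ x, Tendsto (fun n => av n x) atTop (𝓝 (L x)) := fun x =>
    tendsto_atTop_ciInf (av_anti x) ⟨0, by rintro _ ⟨n, rfl⟩; exact av_nonneg n x⟩
  set h : (Fin d → ℤ) → ℝ := fun x => if x = 0 then 0 else L x with hh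
  have hrec : ∀ x, L x = (∑ e : Fin d × Bool, h (x + vec e)) / (2 * d) := by
    intro x
    refine tendsto_nhds_unique ((tendsto_add_atTop_iff_nat 1).2 (lim x)) ?_
    simp only [av]
    refine (tendsto_finsetSum _ fun e _ => ?_).div_const _
    simp only [hh]
    split_ifs
    · exact tendsto_const_nhds
    · exact lim _
  have low : ∀ n (x : Fin d → ℤ), 1 - g x / g (0 : Fin d → ℤ) ≤ if x = 0 then 0 else av n x := by
    intro n
    induction n with
    | zero =>
      intro x
      split_ifs with hx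
      · rw [hx, div_self gp.ne']; simp
      · have := div_nonneg (g_nonneg x) gp.le
        simp only [av]; linarith
    | succ n ih =>
      intro x
      split_ifs with hx
      · rw [hx, div_self gp.ne']; simp
      · simp only [av]
        rw [le_div_iff₀ dp]
        refine le_trans (le_of_eq ?_) (sum_le_sum fun e _ => ih (x + vec e))
        have := g_lap hd x
        rw [sum_sub, if_neg hx] at this
        rw [sum_sub_distrib, ← sum_div, show ∑ e : Fin d × Bool, g (x + vec e) = 2 * d * g x by linarith]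
        simp; ring
  have low2 : ∀ x, 1 - g x / g (0 : Fin d → ℤ) ≤ h x := fun x => by
    simp only [hh]
    split_ifs with hx
    · simpa [hx] using low 0 x
    · exact ge_of_tendsto' (lim x) fun n => by simpa [hx] using low n x
  have up : ∀ x, h x ≤ 1 := fun x => by
    simp only [hh]
    split_ifs
    · norm_num
    · exact le_of_tendsto' (lim x) fun n => by simpa [av] using av_anti x (Nat.zero_le n)
  have mp := maxp hd (fun x => h x - (1 - g x / g (0 : Fin d → ℤ))) (by simp [hh, gp.ne'])
    (squeeze_zero (fun x => sub_nonneg.2 (low2 x)) (g := fun x => g x / g (0 : Fin d → ℤ))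
      (fun x => by linarith [up x]) (by simpa using (g_lim hd).div_const (g (0 : Fin d → ℤ))))
    (fun x hx => by
      have h1 := g_lap hd x
      rw [sum_sub, if_neg hx] at h1
      have h2 := hrec x
      rw [eq_div_iff dp.ne'] at h2
      have h3 : h x = L x := by simp [hh, hx]
      rw [sum_sub, sum_sub_distrib, sum_sub_distrib, ← sum_div, ← h2, h3,
        show ∑ e : Fin d × Bool, g (x + vec e) = 2 * d * g x by linarith]
      simp; ring)
  have eq : ∀ x, h x = 1 - g x / g (0 : Fin d → ℤ) := fun x => by linarith [mp x, low2 x]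
  have h1 := g_lap hd (0 : Fin d → ℤ)
  rw [sum_sub, if_pos rfl] at h1
  have : L 0 = 4 / (2 * d * g (0 : Fin d → ℤ)) := by
    rw [hrec 0]
    simp only [eq]
    rw [sum_sub_distrib, ← sum_div,
      show ∑ e : Fin d × Bool, g (0 + vec e) = 2 * d * g (0 : Fin d → ℤ) - 4 by linarith]
    simp; field_simp; ring
  rw [← this]; exact lim 0

omit hd in
lemma S_meas (t : ℕ) : Measurable fun ω : ℕ → Fin d × Bool => ∑ i ∈ range t, vec (ω i) :=
  Finset.measurable_fun_sum _ fun i _ => (measurable_of_countable vec).comp (measurable_pi_apply i)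

def A (d t : ℕ) : Set (ℕ → Fin d × Bool) := {ω | ∀ m < t, ∑ i ∈ range (m + 1), vec (ω i) ≠ 0}

omit hd in
lemma A_meas (t : ℕ) : MeasurableSet (A d t) := by
  simp only [A, Set.ofPred_forall]
  exact .iInter fun m => .iInter fun _ =>
    S_meas (m + 1) (show MeasurableSet {v : Fin d → ℤ | v ≠ 0} from
      (Set.to_countable _).measurableSet)

lemma P_A (t : ℕ) : ∀ n, ∫⁻ ω, (A d t).indicator 1 ω *
      ENNReal.ofReal (av n (∑ i ∈ range t, vec (ω i)))
      ∂(Measure.infinitePi fun _ => uniformOn (Set.univ : Set (Fin d × Bool))) =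
    ENNReal.ofReal (av (n + t) (0 : Fin d → ℤ)) := by
  have : Nonempty (Fin d) := ⟨⟨0, by omega⟩⟩
  induction t with
  | zero => simp [A]
  | succ t ih =>
    intro n
    rw [← add_assoc, add_right_comm, ← ih]
    have h := MC.indep_past (uniformOn (Set.univ : Set (Fin d × Bool))) t
      (fun ω => (∑ i ∈ range t, vec (ω i), (A d t).indicator (1 : (ℕ → Fin d × Bool) → ℝ≥0∞) ω))
      ((S_meas t).prodMk (measurable_one.indicator (A_meas t))) (fun ω ω' h => by
        have e : ∀ k ≤ t, ∑ i ∈ range k, vec (ω i) = ∑ i ∈ range k, vec (ω' i) := fun k hk =>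
          sum_congr rfl fun i hi => by rw [h i (by have := mem_range.1 hi; omega)]
        have : ω ∈ A d t ↔ ω' ∈ A d t := forall₂_congr fun m hm => by rw [e (m + 1) hm]
        rw [e t le_rfl]
        by_cases k : ω' ∈ A d t <;> simp [Set.indicator, this, k])
      (fun z => z.1.2 * ENNReal.ofReal (if z.1.1 + vec z.2 = 0 then 0 else av n (z.1.1 + vec z.2)))
      (measurable_fst.snd.mul ((measurable_of_countable (fun w : (Fin d → ℤ) × (Fin d × Bool) =>
        ENNReal.ofReal (if w.1 + vec w.2 = 0 then 0 else av n (w.1 + vec w.2)))).comp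
        (measurable_fst.fst.prodMk measurable_snd)))
    refine (lintegral_congr fun ω => ?_).trans (h.trans (lintegral_congr fun ω => ?_))
    · simp only [A, Set.indicator, Set.mem_ofPred_eq, Nat.forall_lt_succ_right, ← sum_range_succ]
      by_cases k : ∑ i ∈ range (t + 1), vec (ω i) = 0 <;> simp [k]
    · simp only
      generalize ∑ i ∈ range t, vec (ω i) = v
      rw [lintegral_const_mul' _ _ (by by_cases k : ω ∈ A d t <;> simp [k]), lintegral_fintype, av,
        ENNReal.ofReal_div_of_pos (dpos hd),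
        ENNReal.ofReal_sum_of_nonneg fun w _ => by split_ifs <;> simp [av_nonneg],
        ENNReal.div_eq_inv_mul]
      congr 1
      rw [mul_sum]
      refine sum_congr rfl fun e _ => ?_
      rw [mul_comm, uniformOn_univ]
      simp [mul_comm, ENNReal.ofReal_mul]

theorem alpha : (Measure.infinitePi fun _ : ℕ => uniformOn (Set.univ : Set (Fin d × Bool))).real
    {ω | ∀ n, 1 ≤ n → ∑ i ∈ range n, vec (ω i) ≠ 0} = 4 / (2 * d * g (0 : Fin d → ℤ)) := by
  have : Nonempty (Fin d) := ⟨⟨0, by omega⟩⟩
  have e : {ω : ℕ → Fin d × Bool | ∀ n, 1 ≤ n → ∑ i ∈ range n, vec (ω i) ≠ 0} = ⋂ t, A d t := by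
    ext ω
    simp only [A, Set.mem_iInter, Set.mem_ofPred_eq]
    refine ⟨fun h t m _ => h _ (by omega), fun h n hn => ?_⟩
    obtain ⟨m, rfl⟩ : ∃ m, n = m + 1 := ⟨n - 1, by omega⟩
    exact h (m + 1) m (by omega)
  have h1 := tendsto_measure_iInter_atTop
    (μ := Measure.infinitePi fun _ : ℕ => uniformOn (Set.univ : Set (Fin d × Bool)))
    (s := fun t => A d t) (fun t => (A_meas t).nullMeasurableSet)
    (fun a b h ω k m hm => k m (by omega)) ⟨0, measure_ne_top _ _⟩
  have h2 : ∀ t, (Measure.infinitePi fun _ : ℕ => uniformOn (Set.univ : Set (Fin d × Bool)))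
      (A d t) = ENNReal.ofReal (av t (0 : Fin d → ℤ)) := fun t => by
    simpa [av, A_meas t] using P_A hd t 0
  have h3 := ENNReal.tendsto_ofReal (av_lim hd)
  simp only [Function.comp_def, h2] at h1
  rw [e, Measure.real, tendsto_nhds_unique h1 h3, ENNReal.toReal_ofReal
    (div_nonneg (by norm_num) (mul_pos (dpos hd) (g_pos hd)).le)]

end Pool.Agent.H.MP_b041da_pr
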