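import Mathlib
import Pool.Agent.H.MP_b041da_pr.C
open Finset Filter Topology
namespace Pool.Agent.H.MP_b041da_pr

variable {d : ℕ} (m : (Fin d → ℤ) → Equiv.Perm (Fin d × Bool)) (ρ : (Fin d → ℤ) → Fin d × Bool)

def rot (k : ℕ) : (Fin d → ℤ) → Fin d × Bool := ((step m)^[k] (0, ρ)).2

lemma pos_succ (k : ℕ) : pos m ρ (k + 1) = pos m ρ k + vec (rot m ρ k (pos m ρ k)) := by
  simp only [pos, rot, Function.iterate_succ_apply', step]

lemma rot_succ (k : ℕ) : rot m ρ (k + 1) =
    Function.update (rot m ρ k) (pos m ρ k) (m (pos m ρ k) (rot m ρ k (pos m ρ k))) := by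
  simp only [pos, rot, Function.iterate_succ_apply', step]

lemma rot_eq (k : ℕ) (y : Fin d → ℤ) :
    rot m ρ k y = (m y ^ Nat.count (fun i => pos m ρ i = y) k) (ρ y) := by
  induction k with
  | zero => simp [rot]
  | succ k ih =>
    rw [rot_succ, Nat.count_succ]
    by_cases h : pos m ρ k = y
    · rw [if_pos h, h, Function.update_self, ih, pow_succ', Equiv.Perm.mul_apply]
    · rw [if_neg h, Function.update_of_ne (Ne.symm h), ih, add_zero]

lemma conn (Q : (Fin d → ℤ) → Prop) (h : ∀ y e, Q y → Q (y + vec e)) (y : Fin d → ℤ) (hy : Q y) :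
    Q 0 := by
  let M : AddSubmonoid (Fin d → ℤ) :=
    { carrier := {z | ∀ y, Q y → Q (y + z)}
      zero_mem' := fun y hy => by simpa using hy
      add_mem' := fun {a b} ha hb y hy => by rw [← add_assoc]; exact hb _ (ha _ hy) }
  have h1 : ∀ (i : Fin d) (k : ℤ), Pi.single i k ∈ M := fun i k => by
    induction k using Int.induction_on with
    | zero => simp
    | succ k ih => rw [Pi.single_add]; exact M.add_mem ih fun y hy => h y (i, true) hy
    | pred k ih => rw [sub_eq_add_neg, Pi.single_add]; exact M.add_mem ih fun y hy => h y (i, false) hy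
  have h2 : -y ∈ M := by
    rw [← univ_sum_single (-y)]; exact M.sum_mem fun i _ => h1 i _
  simpa using h2 y hy

variable (hm : ∀ x, (m x).IsCycleOn Set.univ)

include hm in
lemma cyc (x : Fin d → ℤ) : (m x).IsCycleOn ((univ : Finset (Fin d × Bool)) : Set _) := by
  simpa using hm x

include hm in
lemma fin_visits (hd : 3 ≤ d) (h : ∀ k, 1 ≤ k → pos m ρ k ≠ 0) (y : Fin d → ℤ) :
    {k | pos m ρ k = y}.Finite := by
  by_contra hy
  have := conn (fun y => {k | pos m ρ k = y}.Infinite) (fun y e hy => ?_) y hy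
  · refine this ((Set.finite_singleton 0).subset fun k hk => ?_)
    by_contra hk0
    exact h k (Nat.one_le_iff_ne_zero.2 hk0) hk
  obtain ⟨j, -, hj⟩ := (cyc m hm y).exists_pow_eq (mem_univ (ρ y)) (mem_univ e)
  have hN : 0 < (univ : Finset (Fin d × Bool)).card := by simp; omega
  refine Set.infinite_of_injective_forall_mem
    (f := fun l => Nat.nth (fun i => pos m ρ i = y) (j + (univ : Finset (Fin d × Bool)).card * l) + 1)
    (fun a b hab => ?_) fun l => ?_
  · have := Nat.nth_injective hy (Nat.succ_injective hab)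
    exact Nat.eq_of_mul_eq_mul_left hN (by omega)
  · have h1 : pos m ρ (Nat.nth (fun i => pos m ρ i = y)
        (j + (univ : Finset (Fin d × Bool)).card * l)) = y := Nat.nth_mem_of_infinite hy _
    simp only [Set.mem_ofPred_eq]
    rw [pos_succ, h1, rot_eq, Nat.count_nth_of_infinite hy, ← hj,
      ((cyc m hm y).pow_apply_eq_pow_apply (mem_univ (ρ y)) (n := j)).2 (by simp [Nat.ModEq])]

noncomputable def kap (x : Fin d → ℤ) : ℝ := if x = 0 then 4 / (2 * d) else 0

noncomputable def F (x : Fin d → ℤ) (e : Fin d × Bool) : ℝ := g (x + vec e) - g x + kap x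

noncomputable def phi (x : Fin d → ℤ) (e : Fin d × Bool) : ℝ :=
  (∑ j ∈ range (2 * d), j * F x ((m x ^ j) e)) / (2 * d)

include hm in
lemma sum_cyc (x : Fin d → ℤ) (e : Fin d × Bool) (f : Fin d × Bool → ℝ) :
    ∑ j ∈ range (2 * d), f ((m x ^ j) e) = ∑ e, f e := by
  have hN : (univ : Finset (Fin d × Bool)).card = 2 * d := by simp [mul_comm]
  refine sum_bij (fun j _ => (m x ^ j) e) (by simp) (fun a ha b hb h => ?_) (fun b _ => ?_) (by simp)
  · have := ((cyc m hm x).pow_apply_eq_pow_apply (mem_univ e)).1 h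
    rw [hN] at this
    exact this.eq_of_lt_of_lt (mem_range.1 ha) (mem_range.1 hb)
  · obtain ⟨j, h1, h2⟩ := (cyc m hm x).exists_pow_eq (mem_univ e) (mem_univ b)
    exact ⟨j, mem_range.2 (hN ▸ h1), h2⟩

variable (hd : 3 ≤ d)

include hd in
lemma F_sum (x : Fin d → ℤ) : ∑ e, F x e = 0 := by
  have := dpos hd
  simp only [F]
  rw [sum_add_distrib, g_lap hd, kap]
  split_ifs
  · simp; field_simp; ring
  · simp

include hm hd in
lemma phi_step (x : Fin d → ℤ) (e : Fin d × Bool) : phi m x (m x e) - phi m x e = F x e := by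
  have dp := dpos hd
  have hN : (univ : Finset (Fin d × Bool)).card = 2 * d := by simp [mul_comm]
  have h1 := sum_range_succ' (fun j : ℕ => ((j:ℝ) - 1) * F x ((m x ^ j) e)) (2 * d)
  have h2 := (cyc m hm x).pow_card_apply (mem_univ e)
  rw [hN] at h2
  rw [sum_range_succ, h2] at h1
  have h3 := sum_cyc m hm x e (F x)
  rw [F_sum hd] at h3
  simp only [sub_mul, one_mul, sum_sub_distrib, h3, pow_succ, Equiv.Perm.mul_apply] at h1
  push_cast at h1
  simp only [add_mul, one_mul, sum_add_distrib] at h1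
  unfold phi
  rw [← sub_div, div_eq_iff dp.ne']
  simp only [Equiv.Perm.coe_pow, Function.iterate_zero, id] at h1 ⊢
  linarith

noncomputable def Bd (x : Fin d → ℤ) : ℝ := ∑ e, |F x e|

include hm hd in
lemma phi_le (x : Fin d → ℤ) (e : Fin d × Bool) : |phi m x e| ≤ Bd x := by
  have dp := dpos hd
  rw [phi, abs_div, abs_of_pos dp, div_le_iff₀ dp, Bd, ← sum_cyc m hm x e (fun e => |F x e|), sum_mul]
  refine (abs_sum_le_sum_abs _ _).trans (sum_le_sum fun j hj => ?_)
  rw [abs_mul, Nat.abs_cast, mul_comm]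
  have : (j:ℝ) ≤ 2 * d := by exact_mod_cast (mem_range.1 hj).le
  gcongr

include hd in
lemma Bd_cols (i₀ : Fin d) {ε : ℝ} (hε : 0 < ε) : ∃ K : ℝ, ∀ (C S : Finset (Fin d → ℤ)),
    ∑ x ∈ S, (if Function.update x i₀ 0 ∈ C then 2 * Bd x else 0) ≤ ε * C.card + K := by
  classical
  have dp := dpos hd
  obtain ⟨K, hK⟩ := g_cols hd i₀ (half_pos hε)
  refine ⟨2 * K + 8, fun C S => ?_⟩
  rw [← sum_filter, ← mul_sum]
  have h1 := hK C (S.filter fun x => Function.update x i₀ 0 ∈ C) fun x hx => (mem_filter.1 hx).2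
  have h2 : ∀ x : Fin d → ℤ, Bd x ≤ ∑ e : Fin d × Bool, |g (x + vec e) - g x| +
      if x = 0 then 4 else 0 := fun x => by
    refine (sum_le_sum fun e _ => abs_add_le _ _).trans (le_of_eq ?_)
    rw [sum_add_distrib, kap]
    split_ifs
    · rw [abs_of_pos (by positivity)]; simp; field_simp
    · simp
  have h3 := sum_le_sum (s := S.filter fun x => Function.update x i₀ 0 ∈ C) fun x _ => h2 x
  rw [sum_add_distrib, sum_ite_eq'] at h3
  split_ifs at h3 <;> linarith

variable (e₀ : Fin d × Bool)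

def Supp (C : Finset (Fin d → ℤ)) : Prop := ∀ x, Function.update x e₀.1 0 ∉ C → ρ x = e₀

lemma newcol (C : Finset (Fin d → ℤ)) (h : Supp ρ e₀ C) :
    ∃ c, ∀ k, Function.update (pos m ρ k) e₀.1 0 ∈ insert c C := by
  classical
  by_cases hk : ∃ k, Function.update (pos m ρ k) e₀.1 0 ∉ C
  swap
  · exact ⟨0, fun k => mem_insert_of_mem (by by_contra h; exact hk ⟨k, h⟩)⟩
  set k₀ := Nat.find hk
  have cs : ∀ (x : Fin d → ℤ) (i : ℕ),
      Function.update (x + i • vec e₀) e₀.1 0 = Function.update x e₀.1 0 := fun x i => by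
    funext l
    by_cases hl : l = e₀.1
    · subst hl; simp
    · simp [Function.update_of_ne hl, vec, Pi.single_eq_of_ne hl]
  have key : ∀ i, ∀ l ≤ i, pos m ρ (k₀ + l) = pos m ρ k₀ + l • vec e₀ := by
    intro i
    induction i with
    | zero => intro l hl; simp [Nat.le_zero.1 hl]
    | succ i ih =>
      intro l hl
      rcases Nat.lt_or_eq_of_le hl with hl | rfl
      · exact ih l (by omega)
      have hc : Function.update (pos m ρ (k₀ + i)) e₀.1 0 ∉ C := by
        rw [ih i le_rfl, cs]; exact Nat.find_spec hk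
      have h0 : Nat.count (fun j => pos m ρ j = pos m ρ (k₀ + i)) (k₀ + i) = 0 := by
        rw [Nat.count_iff_forall_not]
        intro j hj he
        rcases lt_or_ge j k₀ with h1 | h1
        · exact Nat.find_min hk h1 (he ▸ hc)
        · obtain ⟨l, rfl⟩ := Nat.exists_eq_add_of_le h1
          rw [ih l (by omega), ih i le_rfl] at he
          have := congrFun (add_left_cancel he) e₀.1
          simp only [vec, Pi.smul_apply, Pi.single_eq_same, nsmul_eq_mul] at this
          split_ifs at this <;> omega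
      rw [← add_assoc, pos_succ, rot_eq, h0, pow_zero, Equiv.Perm.one_apply, h _ hc, ih i le_rfl,
        succ_nsmul, add_assoc]
  refine ⟨Function.update (pos m ρ k₀) e₀.1 0, fun k => ?_⟩
  rcases lt_or_ge k k₀ with h1 | h1
  · exact mem_insert_of_mem (by simpa using Nat.find_min hk h1)
  · obtain ⟨l, rfl⟩ := Nat.exists_eq_add_of_le h1
    rw [key l l le_rfl, cs]; exact mem_insert_self _ _

noncomputable def Psi : ℝ := ∑' x, (phi m x (ρ x) - phi m x e₀)

include hm hd in
lemma term_le (C : Finset (Fin d → ℤ)) (h : Supp ρ e₀ C) (x : Fin d → ℤ) :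
    ‖phi m x (ρ x) - phi m x e₀‖ ≤ if Function.update x e₀.1 0 ∈ C then 2 * Bd x else 0 := by
  split_ifs with hx
  · have := phi_le m hm hd x (ρ x)
    have := phi_le m hm hd x e₀
    rw [Real.norm_eq_abs]
    linarith [abs_sub (phi m x (ρ x)) (phi m x e₀)]
  · simp [h x hx]

omit m ρ in
lemma bd_nonneg (C : Finset (Fin d → ℤ)) (x : Fin d → ℤ) :
    0 ≤ if Function.update x e₀.1 0 ∈ C then 2 * Bd x else 0 := by
  split_ifs
  · exact mul_nonneg (by norm_num) (sum_nonneg fun _ _ => abs_nonneg _)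
  · rfl

include hd in
lemma bd_sum (C : Finset (Fin d → ℤ)) :
    Summable fun x => if Function.update x e₀.1 0 ∈ C then 2 * Bd x else 0 := by
  obtain ⟨K, hK⟩ := Bd_cols hd e₀.1 one_pos
  exact summable_of_sum_le (bd_nonneg e₀ C) (hK C)

include hm hd in
lemma Psi_next (C : Finset (Fin d → ℤ)) (h : Supp ρ e₀ C) : (∃ c, Supp (next m ρ) e₀ (insert c C)) ∧
    ((∀ k, 1 ≤ k → pos m ρ k ≠ 0) →
      Psi m (next m ρ) e₀ = Psi m ρ e₀ + 4 / (2 * d) - g (0 : Fin d → ℤ)) ∧
    (¬ (∀ k, 1 ≤ k → pos m ρ k ≠ 0) → Psi m (next m ρ) e₀ = Psi m ρ e₀ + 4 / (2 * d)) := by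
  classical
  obtain ⟨c, hc⟩ := newcol m ρ e₀ C h
  have s1 : ∀ k, Supp (rot m ρ k) e₀ (insert c C) := fun k x hx => by
    rw [rot_eq, (Nat.count_iff_forall_not (p := fun i => pos m ρ i = x)).2
      fun j _ he => hx (he ▸ hc j)]
    exact h x fun h => hx (mem_insert_of_mem h)
  have s2 : Supp (next m ρ) e₀ (insert c C) := fun x hx => by
    have : {k | pos m ρ k = x ∧ ∀ i, 1 ≤ i → i ≤ k → pos m ρ i ≠ 0} = ∅ :=
      Set.eq_empty_of_forall_notMem fun k hk => hx (hk.1 ▸ hc k)
    rw [next, this, Set.ncard_empty]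
    exact h x fun h => hx (mem_insert_of_mem h)
  have tel : ∀ k, Psi m (rot m ρ k) e₀ =
      Psi m ρ e₀ + ∑ i ∈ range k, kap (pos m ρ i) + (g (pos m ρ k) - g (0 : Fin d → ℤ)) := by
    intro k
    induction k with
    | zero => simp [rot, pos]
    | succ k ih =>
      have hs := (Summable.of_norm_bounded (bd_sum hd e₀ _)
        (term_le m _ hm hd e₀ _ (s1 k))).hasSum.update (pos m ρ k)
        (phi m (pos m ρ k) (m (pos m ρ k) (rot m ρ k (pos m ρ k))) - phi m (pos m ρ k) e₀)
      have e : (fun x => phi m x (rot m ρ (k + 1) x) - phi m x e₀) = Function.update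
          (fun x => phi m x (rot m ρ k x) - phi m x e₀) (pos m ρ k)
          (phi m (pos m ρ k) (m (pos m ρ k) (rot m ρ k (pos m ρ k))) - phi m (pos m ρ k) e₀) := by
        funext x
        rw [rot_succ]
        by_cases hx : x = pos m ρ k
        · subst hx; simp
        · simp [Function.update_of_ne hx]
      have h2 := phi_step m hm hd (pos m ρ k) (rot m ρ k (pos m ρ k))
      rw [F, ← pos_succ] at h2
      rw [Psi, e, hs.tsum_eq, sum_range_succ]
      unfold Psi at ih ⊢
      linarith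
  have ks : ∀ k, 1 ≤ k → (∀ i, 1 ≤ i → i < k → pos m ρ i ≠ 0) →
      ∑ i ∈ range k, kap (pos m ρ i) = 4 / (2 * d) := fun k hk h => by
    rw [sum_eq_single 0 (fun i hi h0 => by
      rw [kap, if_neg (h i (Nat.one_le_iff_ne_zero.2 h0) (mem_range.1 hi))])
      (fun h => absurd (mem_range.2 hk) h)]
    simp [kap, pos]
  have cnt : ∀ k y, Nat.count (fun i => pos m ρ i = y) k = {i | pos m ρ i = y ∧ i < k}.ncard := by
    intro k y
    rw [Nat.count_eq_card_filter_range, ← Set.ncard_coe_finset]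
    congr 1; ext i; simp [and_comm]
  refine ⟨⟨c, s2⟩, fun he => ?_, fun he => ?_⟩
  · have fv := fin_visits m ρ hm hd he
    have l1 : Tendsto (fun k => Psi m (rot m ρ k) e₀) atTop (𝓝 (Psi m (next m ρ) e₀)) := by
      refine tendsto_tsum_of_dominated_convergence (bd_sum hd e₀ (insert c C)) (fun x => ?_)
        (Eventually.of_forall fun k => term_le m _ hm hd e₀ _ (s1 k))
      refine tendsto_const_nhds.congr' ?_
      obtain ⟨M, hM⟩ := (fv x).bddAbove
      filter_upwards [eventually_gt_atTop M] with k hk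
      rw [rot_eq, cnt, next]
      congr 5
      ext i
      exact ⟨fun hi => ⟨hi.1, lt_of_le_of_lt (hM hi.1) hk⟩, fun hi => ⟨hi.1, fun j hj _ => he j hj⟩⟩
    have l2 : Tendsto (pos m ρ) atTop cofinite := by
      rw [← Nat.cofinite_eq_atTop]
      exact Tendsto.cofinite_of_finite_preimage_singleton fun y => fv y
    have l3 := (((g_lim hd).comp l2).sub_const (g (0 : Fin d → ℤ))).const_add
      (Psi m ρ e₀ + 4 / (2 * d))
    refine (tendsto_nhds_unique l1 (l3.congr' ?_)).trans (by ring)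
    filter_upwards [eventually_ge_atTop 1] with k hk
    rw [tel k, ks k hk fun i hi _ => he i hi]; rfl
  · have he : ∃ k, 1 ≤ k ∧ pos m ρ k = 0 := by simpa using he
    have h1 := Nat.find_spec he
    have h2 : ∀ i, 1 ≤ i → i < Nat.find he → pos m ρ i ≠ 0 := fun i hi h h0 =>
      Nat.find_min he h ⟨hi, h0⟩
    have : next m ρ = rot m ρ (Nat.find he) := by
      funext x
      rw [rot_eq, cnt, next]
      congr 3
      ext i
      exact ⟨fun hi => ⟨hi.1, by
        by_contra h3
        exact hi.2 _ h1.1 (not_lt.1 h3) h1.2⟩, fun hi => ⟨hi.1, fun j hj h => h2 j hj (h.trans_lt hi.2)⟩⟩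
    rw [this, tel, ks _ h1.1 h2, h1.2]; ring

include hm hd in
lemma iter (n : ℕ) : (∃ C : Finset (Fin d → ℤ), C.card ≤ n ∧
      Supp ((next m)^[n] fun _ => e₀) e₀ C) ∧
    Psi m ((next m)^[n] fun _ => e₀) e₀ =
      n * (4 / (2 * d)) - esc m (fun _ => e₀) n * g (0 : Fin d → ℤ) := by
  classical
  induction n with
  | zero => exact ⟨⟨∅, le_rfl, fun _ _ => rfl⟩, by simp [Psi, esc]⟩
  | succ n ih =>
    obtain ⟨⟨C, h1, h2⟩, h3⟩ := ih
    obtain ⟨⟨c, k1⟩, k2, k3⟩ := Psi_next m _ hm hd e₀ C h2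
    rw [Function.iterate_succ_apply']
    refine ⟨⟨_, (card_insert_le _ _).trans (by omega), k1⟩, ?_⟩
    have fin : {j | j < n ∧ ∀ k, 1 ≤ k → pos m ((next m)^[j] fun _ => e₀) k ≠ 0}.Finite :=
      (Set.finite_lt_nat n).subset fun j hj => hj.1
    by_cases he : ∀ k, 1 ≤ k → pos m ((next m)^[n] fun _ => e₀) k ≠ 0
    · have : esc m (fun _ => e₀) (n + 1) = esc m (fun _ => e₀) n + 1 := by
        rw [esc, esc, ← Set.ncard_insert_of_notMem (a := n) (fun h => lt_irrefl _ h.1) fin]
        congr 1; ext j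
        simp only [Set.mem_ofPred_eq, Set.mem_insert_iff, Nat.lt_succ_iff_lt_or_eq]
        constructor
        · rintro ⟨a | a, b⟩
          · exact Or.inr ⟨a, b⟩
          · exact Or.inl a
        · rintro (rfl | ⟨a, b⟩)
          · exact ⟨Or.inr rfl, he⟩
          · exact ⟨Or.inl a, b⟩
      rw [k2 he, h3, this]; push_cast; ring
    · have : esc m (fun _ => e₀) (n + 1) = esc m (fun _ => e₀) n := by
        rw [esc, esc]
        congr 1; ext j
        simp only [Set.mem_ofPred_eq, Nat.lt_succ_iff_lt_or_eq]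
        constructor
        · rintro ⟨a | rfl, b⟩
          · exact ⟨a, b⟩
          · exact absurd b he
        · rintro ⟨a, b⟩; exact ⟨Or.inl a, b⟩
      rw [k3 he, h3, this]; push_cast; ring

include hm hd in
theorem rate : Tendsto (fun n => (esc m (fun _ => e₀) n : ℝ) / n) atTop
    (𝓝 (4 / (2 * d * g (0 : Fin d → ℤ)))) := by
  have gp := g_pos hd
  have dp := dpos hd
  have h : Tendsto (fun n : ℕ => Psi m ((next m)^[n] fun _ => e₀) e₀ / n) atTop (𝓝 0) := by
    rw [Metric.tendsto_nhds]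
    intro ε hε
    obtain ⟨K, hK⟩ := Bd_cols hd e₀.1 (half_pos hε)
    have h1 := (tendsto_const_div_atTop_nhds_zero_nat K).eventually (gt_mem_nhds (half_pos hε))
    filter_upwards [h1, eventually_gt_atTop 0] with n hn hn0
    have hn0 : (0:ℝ) < n := by exact_mod_cast hn0
    obtain ⟨⟨C, c1, c2⟩, -⟩ := iter m hm hd e₀ n
    have h2 := tsum_of_norm_bounded (bd_sum hd e₀ C).hasSum (term_le m _ hm hd e₀ C c2)
    have h3 := Real.tsum_le_of_sum_le (bd_nonneg e₀ C) (hK C)
    have c1 : (C.card : ℝ) ≤ n := by exact_mod_cast c1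
    rw [div_lt_iff₀ hn0] at hn
    rw [dist_zero_right, norm_div, Real.norm_natCast, div_lt_iff₀ hn0]
    unfold Psi
    nlinarith
  have h2 := (h.const_sub (4 / (2 * (d:ℝ)))).div_const (g (0 : Fin d → ℤ))
  rw [sub_zero, div_div] at h2
  refine h2.congr' ?_
  filter_upwards [eventually_gt_atTop 0] with n hn0
  have hn0 : (0:ℝ) < n := by exact_mod_cast hn0
  rw [(iter m hm hd e₀ n).2]
  field_simp
  ring

end Pool.Agent.H.MP_b041da_pr
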